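import Pool.Agent.H11.NY.Targets

/-!
# Normal subgroups of a perfect group that is soluble-by-alternating
-/

set_option autoImplicit false

open Equiv (Perm)

namespace Pool.Agent.H14.NY.NM

open Pool.Agent.H11.NY

/-- a perfect subgroup contained in `C ⊔ N`, `N` soluble, is contained in `C` -/
theorem perf_le {G : Type} [Group G] (C N D : Subgroup G) [C.Normal]
    (hN : Group.IsSolvable N) (hD : ⁅D, D⁆ = D) (h : D ≤ C ⊔ N) : D ≤ C := by
  have hNs : Group.IsSolvable (N.map (QuotientGroup.mk' C)) := by
    have := hN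
    exact Group.isSolvable_of_surjective (f := (QuotientGroup.mk' C).subgroupMap N)
      ((QuotientGroup.mk' C).subgroupMap_surjective N)
  have h1 : D.map (QuotientGroup.mk' C) ≤ N.map (QuotientGroup.mk' C) := by
    have h2 : (C ⊔ N).map (QuotientGroup.mk' C) = N.map (QuotientGroup.mk' C) := by
      rw [Subgroup.map_sup]
      have h3 : C.map (QuotientGroup.mk' C) = ⊥ := by
        rw [Subgroup.map_eq_bot_iff, QuotientGroup.ker_mk']
      rw [h3, bot_sup_eq]
    rw [← h2]
    exact Subgroup.map_mono h
  have h4 : Group.IsSolvable (D.map (QuotientGroup.mk' C)) := by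
    have := hNs
    exact Group.isSolvable_of_isSolvable_injective (f := Subgroup.inclusion h1)
      (Subgroup.inclusion_injective h1)
  have h5 : ⁅D.map (QuotientGroup.mk' C), D.map (QuotientGroup.mk' C)⁆ =
      D.map (QuotientGroup.mk' C) := by
    rw [← Subgroup.map_commutator, hD]
  have h6 : D.map (QuotientGroup.mk' C) = ⊥ := by
    by_contra hne
    have := h4
    have : Nontrivial (D.map (QuotientGroup.mk' C)) :=
      (Subgroup.nontrivial_iff_ne_bot _).mpr hne
    have h7 := Group.IsSolvable.commutator_lt_top_of_nontrivial (D.map (QuotientGroup.mk' C))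
    apply h7.ne
    apply Subgroup.map_injective (D.map (QuotientGroup.mk' C)).subtype_injective
    rw [Subgroup.map_subtype_commutator, h5, ← MonoidHom.range_eq_map, Subgroup.range_subtype]
  rw [Subgroup.map_eq_bot_iff, QuotientGroup.ker_mk'] at h6
  exact h6

theorem pf_nm : T_NM := by
  intro L Ω _ _ _ _ ψ hΩ hψ hL hs M hM hx
  have : IsSimpleGroup (alternatingGroup Ω) :=
    alternatingGroup.isSimpleGroup (by rw [Nat.card_eq_fintype_card]; exact hΩ)
  have h1 : (M.map ψ).Normal := hM.map ψ hψ
  obtain ⟨x, hxM, hx1⟩ := hx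
  have h2 : M.map ψ = ⊤ := by
    rcases h1.eq_bot_or_eq_top with h | h
    · exfalso
      apply hx1
      have : ψ x ∈ M.map ψ := Subgroup.mem_map_of_mem ψ hxM
      rw [h] at this
      exact Subgroup.mem_bot.mp this
    · exact h
  have h3 : (⊤ : Subgroup L) ≤ M ⊔ ψ.ker := by
    rw [← Subgroup.comap_map_eq, h2, Subgroup.comap_top]
  exact top_le_iff.mp (perf_le M ψ.ker ⊤ hs hL h3)

end Pool.Agent.H14.NY.NM
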