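import Pool.Agent.H11.NY.Targets

/-!
# Perfect local subgroups lie in the normal subgroups of the point stabiliser
-/

set_option autoImplicit false

open Equiv (Perm)

namespace Pool.Agent.H14.NY.STB

open Pool.Agent.H11.NY

/-- a perfect subgroup contained in `C ⊔ N`, `N` soluble, is contained in `C` -/
theorem perf_le {G : Type} [Group G] (C N D : Subgroup G) [C.Normal]
    (hN : Group.IsSolvable N) (hD : ⁅D, D⁆ = D) (h : D ≤ C ⊔ N) : D ≤ C := by
  have hNs : Group.IsSolvable (N.map (QuotientGroup.mk' C)) := by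
    have := hN
    exact Group.isSolvable_of_surjective (f := (QuotientGroup.mk' C).subgroupMap N)
      ((QuotientGroup.mk' C).subgroupMap_surjective N)
  have h1 : D.map (QuotientGroup.mk' C) ≤ N.map (QuotientGroup.mk' C) := by
    have h2 : (C ⊔ N).map (QuotientGroup.mk' C) = N.map (QuotientGroup.mk' C) := by
      rw [Subgroup.map_sup]
      have h3 : C.map (QuotientGroup.mk' C) = ⊥ := by
        rw [Subgroup.map_eq_bot_iff, QuotientGroup.ker_mk']
      rw [h3, bot_sup_eq]
    rw [← h2]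
    exact Subgroup.map_mono h
  have h4 : Group.IsSolvable (D.map (QuotientGroup.mk' C)) := by
    have := hNs
    exact Group.isSolvable_of_isSolvable_injective (f := Subgroup.inclusion h1)
      (Subgroup.inclusion_injective h1)
  have h5 : ⁅D.map (QuotientGroup.mk' C), D.map (QuotientGroup.mk' C)⁆ =
      D.map (QuotientGroup.mk' C) := by
    rw [← Subgroup.map_commutator, hD]
  have h6 : D.map (QuotientGroup.mk' C) = ⊥ := by
    by_contra hne
    have := h4
    have : Nontrivial (D.map (QuotientGroup.mk' C)) :=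
      (Subgroup.nontrivial_iff_ne_bot _).mpr hne
    have h7 := Group.IsSolvable.commutator_lt_top_of_nontrivial (D.map (QuotientGroup.mk' C))
    apply h7.ne
    apply Subgroup.map_injective (D.map (QuotientGroup.mk' C)).subtype_injective
    rw [Subgroup.map_subtype_commutator, h5, ← MonoidHom.range_eq_map, Subgroup.range_subtype]
  rw [Subgroup.map_eq_bot_iff, QuotientGroup.ker_mk'] at h6
  exact h6

/-- the even permutations of the points different from `ω`, as permutations of all points -/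
def ext {Ω : Type} [Fintype Ω] [DecidableEq Ω] (ω : Ω) :
    alternatingGroup {x : Ω // x ≠ ω} →* alternatingGroup Ω where
  toFun σ := ⟨Equiv.Perm.ofSubtype σ.1, by
    rw [Equiv.Perm.mem_alternatingGroup, Equiv.Perm.sign_ofSubtype]
    exact Equiv.Perm.mem_alternatingGroup.mp σ.2⟩
  map_one' := by
    apply Subtype.ext
    simp
  map_mul' := by
    intro x y
    apply Subtype.ext
    simp

theorem ext_fix {Ω : Type} [Fintype Ω] [DecidableEq Ω] (ω : Ω)
    (σ : alternatingGroup {x : Ω // x ≠ ω}) : ((ext ω σ : alternatingGroup Ω) : Perm Ω) ω = ω :=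
  Equiv.Perm.ofSubtype_apply_of_not_mem σ.1 (by simp)

theorem ext_surj {Ω : Type} [Fintype Ω] [DecidableEq Ω] (ω : Ω) (τ : alternatingGroup Ω)
    (h : (τ : Perm Ω) ω = ω) : ∃ σ, ext ω σ = τ := by
  have h1 : ∀ x, x ≠ ω ↔ (τ : Perm Ω) x ≠ ω := by
    intro x
    refine not_congr ⟨fun hx => by rw [hx, h], fun hx => ?_⟩
    apply (τ : Perm Ω).injective
    rw [hx, h]
  have h2 : Equiv.Perm.ofSubtype ((τ : Perm Ω).subtypePerm (p := fun x => x ≠ ω)
      (fun x => (h1 x).symm)) = (τ : Perm Ω) := by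
    apply Equiv.Perm.ofSubtype_subtypePerm
    intro x hx hxω
    rw [hxω] at hx
    exact hx h
  refine ⟨⟨(τ : Perm Ω).subtypePerm (p := fun x => x ≠ ω) (fun x => (h1 x).symm), ?_⟩, ?_⟩
  · rw [Equiv.Perm.mem_alternatingGroup, ← Equiv.Perm.sign_ofSubtype, h2]
    exact Equiv.Perm.mem_alternatingGroup.mp τ.2
  · apply Subtype.ext
    exact h2

theorem pf_stb : T_STB := by
  intro L Ω _ _ _ _ ψ hΩ hψ hs ω C hC hCn hx Δ hωΔ D hD
  have hcard : 5 ≤ Nat.card {x : Ω // x ≠ ω} := by
    rw [Nat.card_eq_fintype_card, Fintype.card_subtype_compl, Fintype.card_subtype_eq]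
    omega
  have hsim : IsSimpleGroup (alternatingGroup {x : Ω // x ≠ ω}) :=
    alternatingGroup.isSimpleGroup hcard
  have hnor : ((C.map ψ).comap (ext ω)).Normal := by
    constructor
    intro n hn g
    obtain ⟨c, hc, hcn⟩ := hn
    obtain ⟨y, hy⟩ := hψ (ext ω g)
    refine ⟨y * c * y⁻¹, hCn y (by rw [hy]; exact ext_fix ω g) c hc, ?_⟩
    rw [map_mul, map_mul, map_inv, hcn, hy, map_mul, map_mul, map_inv]
  have htop : (C.map ψ).comap (ext ω) = ⊤ := by
    rcases hnor.eq_bot_or_eq_top with h | h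
    · exfalso
      obtain ⟨x, hxC, hx1⟩ := hx
      obtain ⟨σ, hσ⟩ := ext_surj ω (ψ x) (hC x hxC)
      have h1 : σ ∈ (C.map ψ).comap (ext ω) := by
        rw [Subgroup.mem_comap, hσ]
        exact Subgroup.mem_map_of_mem ψ hxC
      rw [h, Subgroup.mem_bot] at h1
      rw [h1, map_one] at hσ
      exact hx1 hσ.symm
    · exact h
  have hall : ∀ x : L, (ψ x : Perm Ω) ω = ω → ∃ c ∈ C, ψ c = ψ x := by
    intro x hxω
    obtain ⟨σ, hσ⟩ := ext_surj ω (ψ x) hxω
    have h1 : σ ∈ (C.map ψ).comap (ext ω) := by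
      rw [htop]
      exact Subgroup.mem_top σ
    rw [Subgroup.mem_comap, hσ] at h1
    exact h1
  set L1 : Subgroup L :=
    (MulAction.stabilizer (Perm Ω) ω).comap ((alternatingGroup Ω).subtype.comp ψ) with hL1
  have hmem : ∀ x : L, x ∈ L1 ↔ (ψ x : Perm Ω) ω = ω := fun x => Iff.rfl
  have hCL : C ≤ L1 := fun x hxC => (hmem x).mpr (hC x hxC)
  have hDL : D ≤ L1 := fun x hxD => (hmem x).mpr (hD.2 x hxD ω hωΔ)
  have hKL : ψ.ker ≤ L1 := by
    intro x hxK
    rw [hmem, MonoidHom.mem_ker.mp hxK]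
    rfl
  have hCN : (C.subgroupOf L1).Normal := by
    constructor
    intro n hn g
    rw [Subgroup.mem_subgroupOf] at hn ⊢
    exact hCn g ((hmem g).mp g.2) n hn
  have hKs : Group.IsSolvable (ψ.ker.subgroupOf L1) := by
    have := hs
    exact Group.isSolvable_of_isSolvable_injective
      (f := (Subgroup.subgroupOfEquivOfLe hKL).toMonoidHom)
      (Subgroup.subgroupOfEquivOfLe hKL).injective
  have hDp : ⁅D.subgroupOf L1, D.subgroupOf L1⁆ = D.subgroupOf L1 := by
    apply Subgroup.map_injective L1.subtype_injective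
    rw [Subgroup.map_commutator, Subgroup.subgroupOf_map_subtype, inf_eq_left.mpr hDL, hD.1]
  have hle : D.subgroupOf L1 ≤ C.subgroupOf L1 ⊔ ψ.ker.subgroupOf L1 := by
    intro x _
    obtain ⟨c, hc, hcx⟩ := hall x ((hmem x).mp x.2)
    have h1 : x = (⟨c, hCL hc⟩ : L1) * ((⟨c, hCL hc⟩ : L1)⁻¹ * x) := by group
    rw [h1]
    apply Subgroup.mul_mem_sup
    · exact hc
    · rw [Subgroup.mem_subgroupOf, MonoidHom.mem_ker]
      change ψ (c⁻¹ * x) = 1
      rw [map_mul, map_inv, hcx, inv_mul_cancel]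
  have hfin := perf_le (C.subgroupOf L1) (ψ.ker.subgroupOf L1) (D.subgroupOf L1) hKs hDp hle
  intro x hxD
  have h1 : (⟨x, hDL hxD⟩ : L1) ∈ D.subgroupOf L1 := hxD
  exact hfin h1

end Pool.Agent.H14.NY.STB
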